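import Pool.Agent.Helper6.LinSpace.Mach

/-!
# Counter programs with polynomially bounded counters run in linear space
-/

namespace Pool.Agent.Helper6.Compile

open Pool.Agent.Helper65.LinSpace

/-- Control states of the Turing machine of a program with control states `σ`. -/
inductive Ctl (σ : Type)
  | init
  | copy
  | back
  | run (a : σ)
  | scan0
  | scan
  | acc
  | rej

theorem finite_Ctl (σ : Type) [Finite σ] : Finite (Ctl σ) :=
  Finite.of_surjective (fun x : Fin 7 ⊕ σ =>
    match x with
    | .inl 0 => .init
    | .inl 1 => .copy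
    | .inl 2 => .back
    | .inl 3 => .scan0
    | .inl 4 => .scan
    | .inl 5 => .acc
    | .inl 6 => .rej
    | .inr a => .run a) (by
      rintro (_ | _ | _ | a | _ | _ | _ | _)
      exacts [⟨.inl 0, rfl⟩, ⟨.inl 1, rfl⟩, ⟨.inl 2, rfl⟩, ⟨.inr a, rfl⟩, ⟨.inl 3, rfl⟩,
        ⟨.inl 4, rfl⟩, ⟨.inl 5, rfl⟩, ⟨.inl 6, rfl⟩])

/-- Action on a single tape. -/
def single {k : ℕ} (i : Fin k) (s : Fin k → Sy) (x : Sy) (d : Dir) : Fin k → Sy × Dir :=
  fun j => if j = i then (x, d) else (s j, .stay)

/-- The action of the machine in the copying phase. -/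
def copyStep {σ : Type} {k : ℕ} (z : Fin k) (s : Fin k → Sy) :
    Option Bool → Ctl σ × Dir × (Fin k → Sy × Dir)
  | some b => (.copy, .right, single z s (.bit b) .right)
  | none => (.back, .stay, single z s (.bit true) .left)

/-- The action of the machine in the way back. -/
def backStep {σ : Type} {k : ℕ} (e : σ) (z : Fin k) (s : Fin k → Sy) :
    Sy → Ctl σ × Dir × (Fin k → Sy × Dir)
  | .mark => (.run e, .stay, single z s .mark .stay)
  | x => (.back, .stay, single z s x .left)

/-- The action of the machine in the final scan. -/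
def scanStep {σ : Type} {k : ℕ} (o : Fin k) (s : Fin k → Sy) :
    Sy → Ctl σ × Dir × (Fin k → Sy × Dir)
  | .bit false => (.scan, .stay, single o s (.bit false) .right)
  | .bit true => (.acc, .stay, single o s (.bit true) .stay)
  | x => (.rej, .stay, single o s x .stay)

/-- The Turing machine of a program. -/
def theTM (P : Prog) {k : ℕ} (z o : Fin k) (htp : ∀ a, tp P a < k) : TM k where
  State := Ctl (St P)
  Sym := Sy
  finState := by
    have := finite_St P
    exact finite_Ctl _
  finSym := inferInstance
  start := .init
  blank := .blank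
  accept := {.acc}
  step q a s :=
    match q with
    | .init => some (.copy, .right, fun j => (.mark, if j = z then .right else .stay))
    | .copy => some (copyStep z s a)
    | .back => some (backStep (entry P) z s (s z))
    | .run x => some ((act P x (s ⟨tp P x, htp x⟩)).1.elim .scan0 .run, .stay,
        single ⟨tp P x, htp x⟩ s (act P x (s ⟨tp P x, htp x⟩)).2.1
          (act P x (s ⟨tp P x, htp x⟩)).2.2)
    | .scan0 => some (.scan, .stay, single o s (s o) .right)
    | .scan => some (scanStep o s (s o))
    | .acc => none
    | .rej => none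

variable {P : Prog} {k : ℕ} {z o : Fin k} {htp : ∀ a, tp P a < k}

/-- Configurations with tapes indexed by numbers. -/
def cfg (P : Prog) {k : ℕ} (z o : Fin k) (htp : ∀ a, tp P a < k) (q : Ctl (St P)) (n : ℕ)
    (T : ℕ → ℤ → Sy) (H : ℕ → ℤ) : (theTM P z o htp).Cfg :=
  { state := q
    inp := n
    tape := fun j => T j
    head := fun j => H j }

theorem next_single {w : List Bool} {q : Ctl (St P)} {n : ℕ} {T : ℕ → ℤ → Sy} {H : ℕ → ℤ}
    {q' : Ctl (St P)} {m : Dir} {i : Fin k} {x : Sy} {d : Dir}
    (h : (theTM P z o htp).step q (inputSym w n) (fun j => T j (H j)) =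
      some (q', m, single i (fun j => T j (H j)) x d)) :
    (theTM P z o htp).next w (cfg P z o htp q n T H) =
      some (cfg P z o htp q' (inputMove w m n)
        (Function.update T i (Function.update (T i) (H i) x))
        (Function.update H i (H i + d.toInt))) := by
  have h2 : (theTM P z o htp).next w (cfg P z o htp q n T H) =
      Option.map (fun a : (theTM P z o htp).State × Dir ×
          (Fin k → (theTM P z o htp).Sym × Dir) =>
        ({ state := a.1
           inp := inputMove w a.2.1 n
           tape := fun i => Function.update (T i) (H i) (a.2.2 i).1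
           head := fun i => H i + (a.2.2 i).2.toInt } : (theTM P z o htp).Cfg))
        (some (q', m, single i (fun j => T j (H j)) x d)) :=
    congrArg _ h
  refine h2.trans ?_
  refine congrArg some ?_
  have e1 : (fun j : Fin k => Function.update (T j) (H j)
      ((single i (fun j => T j (H j)) x d) j).1) =
      (fun j : Fin k => (Function.update T (i : ℕ) (Function.update (T i) (H i) x)) (j : ℕ)) := by
    funext j
    by_cases hj : j = i
    · subst hj; simp [single]
    · have : (j : ℕ) ≠ i := fun hh => hj (Fin.ext hh)
      simp [single, hj, this]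
  have e2 : (fun j : Fin k => H j + ((single i (fun j => T j (H j)) x d) j).2.toInt) =
      (fun j : Fin k => (Function.update H (i : ℕ) (H i + d.toInt)) (j : ℕ)) := by
    funext j
    by_cases hj : j = i
    · subst hj; simp [single]
    · have : (j : ℕ) ≠ i := fun hh => hj (Fin.ext hh)
      simp [single, hj, this, Dir.toInt]
  exact (TM.Cfg.mk.injEq (M := theTM P z o htp) _ _ _ _ _ _ _ _).mpr ⟨rfl, rfl, e1, e2⟩

/-- One step with work heads close to the origin afterwards. -/
def TStep {k : ℕ} (M : TM k) (w : List Bool) (K : ℤ) (c c' : M.Cfg) : Prop :=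
  M.next w c = some c' ∧ ∀ i, |c'.head i| ≤ K

theorem tstep_single {w : List Bool} {K : ℤ} {q : Ctl (St P)} {n n' : ℕ} {T T' : ℕ → ℤ → Sy}
    {H H' : ℕ → ℤ} {q' : Ctl (St P)} {m : Dir} {i : Fin k} {x : Sy} {d : Dir}
    (h : (theTM P z o htp).step q (inputSym w n) (fun j => T j (H j)) =
      some (q', m, single i (fun j => T j (H j)) x d))
    (hn : inputMove w m n = n')
    (hT : Function.update T i (Function.update (T i) (H i) x) = T')
    (hH : Function.update H i (H i + d.toInt) = H') (hK : ∀ j, |H' j| ≤ K) :
    TStep (theTM P z o htp) w K (cfg P z o htp q n T H) (cfg P z o htp q' n' T' H') := by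
  refine ⟨?_, fun j => hK j⟩
  rw [next_single h, hn, hT, hH]

/-- Work heads on one tape. -/
theorem upd_bound {K : ℤ} {i : ℕ} {a : ℤ} (h0 : 0 ≤ a) (h1 : a ≤ K) :
    ∀ j, |Function.update (fun _ : ℕ => (0 : ℤ)) i a j| ≤ K := by
  intro j
  by_cases hj : j = i
  · subst hj; rw [Function.update_self, abs_of_nonneg h0]; exact h1
  · rw [Function.update_of_ne hj, abs_zero]; exact h0.trans h1

/-- A step on one tape when the other heads are at the origin. -/
theorem tstep_focus {w : List Bool} {K : ℤ} {q : Ctl (St P)} {n n' : ℕ} (T : ℕ → ℤ → Sy)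
    {f f' : ℤ → Sy} {a a' : ℤ} {q' : Ctl (St P)} {m : Dir} {i : Fin k} {x : Sy} {d : Dir}
    (h : ∀ s : Fin k → Sy, s i = f a → (theTM P z o htp).step q (inputSym w n) s =
      some (q', m, single i s x d))
    (hn : inputMove w m n = n') (hf : Function.update f a x = f') (ha : a + d.toInt = a')
    (h0 : 0 ≤ a') (h1 : a' ≤ K) :
    TStep (theTM P z o htp) w K
      (cfg P z o htp q n (Function.update T i f) (Function.update (fun _ => 0) i a))
      (cfg P z o htp q' n' (Function.update T i f') (Function.update (fun _ => 0) i a')) := by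
  refine tstep_single (i := i) (x := x) (d := d) (m := m) (h _ ?_) hn ?_ ?_ (upd_bound h0 h1)
  · simp only [Function.update_self]
  · simp only [Function.update_self, Function.update_idem, hf]
  · simp only [Function.update_self, Function.update_idem, ha]

/-- The copying phase. -/
theorem copy_phase {w : List Bool} {K : ℤ} (T : ℕ → ℤ → Sy) (suf : List Bool) :
    ∀ pre : List Bool, w = pre ++ suf → (w.length : ℤ) + 1 ≤ K →
      Relation.ReflTransGen (TStep (theTM P z o htp) w K)
        (cfg P z o htp .copy (pre.length + 1) (Function.update T z (tapeOf pre))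
          (Function.update (fun _ => 0) z ((pre.length : ℤ) + 1)))
        (cfg P z o htp .back (w.length + 1) (Function.update T z (tapeOf (w ++ [true])))
          (Function.update (fun _ => 0) z (w.length : ℤ))) := by
  induction suf with
  | nil =>
    intro pre hw hK
    have hw' : w = pre := by simpa using hw
    subst hw'
    refine Relation.ReflTransGen.single ?_
    refine tstep_focus (x := .bit true) (d := .left) (m := .stay) T ?_ rfl
      (tapeOf_write_end w true) (by simp [Dir.toInt]) (by positivity) (by linarith)
    intro s hs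
    have : inputSym w (w.length + 1) = none := by simp [inputSym]
    rw [this]; rfl
  | cons b t ih =>
    intro pre hw hK
    have hlen : (pre.length : ℤ) + 1 ≤ w.length := by
      rw [hw]; simp
    refine Relation.ReflTransGen.head ?_ (by simpa using ih (pre ++ [b]) (by simp [hw]) hK)
    refine tstep_focus (x := .bit b) (d := .right) (m := .right) T ?_ ?_
      (tapeOf_write_end pre b) (by simp [Dir.toInt]) (by positivity) (by linarith)
    · intro s hs
      have : inputSym w (pre.length + 1) = some b := by simp [inputSym, hw]
      rw [this]; rfl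
    · simp only [inputMove]
      rw [min_eq_left]
      have : (pre.length : ℤ) + 1 ≤ w.length := hlen
      omega

/-- The way back after the copying phase. -/
theorem back_phase {w : List Bool} {K : ℤ} (n : ℕ) (T : ℕ → ℤ → Sy) (pre : List Bool) :
    ∀ suf : List Bool, (pre.length : ℤ) ≤ K →
      Relation.ReflTransGen (TStep (theTM P z o htp) w K)
        (cfg P z o htp .back n (Function.update T z (tapeOf (pre ++ suf)))
          (Function.update (fun _ => 0) z (pre.length : ℤ)))
        (cfg P z o htp (.run (entry P)) n (Function.update T z (tapeOf (pre ++ suf)))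
          (Function.update (fun _ => 0) z 0)) := by
  induction pre using List.reverseRecOn with
  | nil =>
    intro suf hK
    refine Relation.ReflTransGen.single ?_
    refine tstep_focus (x := .mark) (d := .stay) (m := .stay) T ?_ rfl
      ?_ (by simp [Dir.toInt]) (le_refl _) (by simpa using hK)
    · intro s hs
      have h1 : s z = .mark := by rw [hs]; simp [tapeOf_zero]
      show some (backStep (entry P) z s (s z)) = _
      rw [h1]; rfl
    · have := Function.update_eq_self (f := tapeOf ([] ++ suf)) (a := (([] : List Bool).length : ℤ))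
      simp only [List.length_nil, Nat.cast_zero, tapeOf_zero] at this ⊢
      exact this
  | append_singleton pre b ih =>
    intro suf hK
    have hK' : (pre.length : ℤ) ≤ K := by simp at hK; linarith
    have hl : ((pre ++ [b]).length : ℤ) = (pre.length : ℤ) + 1 := by simp
    rw [hl]
    have e : pre ++ [b] ++ suf = pre ++ b :: suf := by simp
    rw [e]
    refine Relation.ReflTransGen.head ?_ (ih (b :: suf) hK')
    refine tstep_focus (x := .bit b) (d := .left) (m := .stay) T ?_ rfl
      (tapeOf_write pre b b suf) (by simp [Dir.toInt]) (by positivity) hK'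
    intro s hs
    have h1 : s z = .bit b := by rw [hs, tapeOf_read]
    show some (backStep (entry P) z s (s z)) = _
    rw [h1]; rfl

/-- The phase of the program. -/
theorem run_phase {w : List Bool} {W : ℕ} (n : ℕ) {c c' : Conf P} (h : Steps P W c c') :
    Relation.ReflTransGen (TStep (theTM P z o htp) w (W + 1))
      (cfg P z o htp (c.1.elim .scan0 .run) n c.2.1 c.2.2)
      (cfg P z o htp (c'.1.elim .scan0 .run) n c'.2.1 c'.2.2) := by
  refine Relation.ReflTransGen.lift
    (fun c : Conf P => cfg P z o htp (c.1.elim .scan0 .run) n c.2.1 c.2.2) ?_ c c' h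
  rintro ⟨x, T, H⟩ c₂ ⟨a, hx, rfl, hb⟩
  simp only at hx
  subst hx
  refine tstep_single (i := ⟨tp P a, htp a⟩) (m := .stay)
    (x := (act P a (T (tp P a) (H (tp P a)))).2.1)
    (d := (act P a (T (tp P a) (H (tp P a)))).2.2) rfl rfl rfl rfl ?_
  intro j
  rw [abs_of_nonneg (hb j).1]
  exact (hb j).2

/-- The final scan. -/
theorem scan_phase {w : List Bool} {K : ℤ} (n : ℕ) (T : ℕ → ℤ → Sy) (suf : List Bool) :
    ∀ k' : ℕ, (k' : ℤ) + suf.length + 1 ≤ K →
      ∃ T' H', Relation.ReflTransGen (TStep (theTM P z o htp) w K)
        (cfg P z o htp .scan n (Function.update T o (tapeOf (List.replicate k' false ++ suf)))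
          (Function.update (fun _ => 0) o ((k' : ℤ) + 1)))
        (cfg P z o htp (if val suf = 0 then .rej else .acc) n T' H') := by
  induction suf with
  | nil =>
    intro k' hK
    refine ⟨Function.update T o (tapeOf (List.replicate k' false ++ [])),
      Function.update (fun _ => 0) o ((k' : ℤ) + 1), Relation.ReflTransGen.single ?_⟩
    have hread : tapeOf (List.replicate k' false ++ []) ((k' : ℤ) + 1) = .blank := by
      have := tapeOf_read_end (List.replicate k' false)
      rw [List.length_replicate] at this
      simpa using this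
    refine tstep_focus (x := .blank) (d := .stay) (m := .stay) T ?_ rfl
      ?_ (by simp [Dir.toInt]) (by positivity) (by simpa using hK)
    · intro s hs
      rw [hread] at hs
      show some (scanStep o s (s o)) = _
      rw [hs]; rfl
    · rw [← hread, Function.update_eq_self]
  | cons b t ih =>
    intro k' hK
    have hread : tapeOf (List.replicate k' false ++ b :: t) ((k' : ℤ) + 1) = .bit b := by
      have := tapeOf_read (List.replicate k' false) b t
      rwa [List.length_replicate] at this
    have hK1 : (k' : ℤ) + 1 ≤ K := by simp at hK; linarith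
    cases b with
    | false =>
      have hrep : List.replicate (k' + 1) false ++ t = List.replicate k' false ++ false :: t := by
        rw [List.replicate_succ', List.append_assoc]; rfl
      obtain ⟨T', H', h⟩ := ih (k' + 1) (by simp at hK ⊢; linarith)
      refine ⟨T', H', ?_⟩
      have hv : val (false :: t) = 0 ↔ val t = 0 := by simp [val]
      rw [hrep] at h
      simp only [hv]
      refine Relation.ReflTransGen.head ?_ h
      refine tstep_focus (x := .bit false) (d := .right) (m := .stay) T ?_ rfl
        ?_ (by simp [Dir.toInt]) (by positivity) (by simp at hK ⊢; linarith)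
      · intro s hs
        rw [hread] at hs
        show some (scanStep o s (s o)) = _
        rw [hs]; rfl
      · rw [← hread, Function.update_eq_self]
    | true =>
      refine ⟨Function.update T o (tapeOf (List.replicate k' false ++ true :: t)),
        Function.update (fun _ => 0) o ((k' : ℤ) + 1), Relation.ReflTransGen.single ?_⟩
      have hv : ¬ val (true :: t) = 0 := by simp [val]
      rw [if_neg hv]
      refine tstep_focus (x := .bit true) (d := .stay) (m := .stay) T ?_ rfl
        ?_ (by simp [Dir.toInt]) (by positivity) hK1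
      · intro s hs
        rw [hread] at hs
        show some (scanStep o s (s o)) = _
        rw [hs]; rfl
      · rw [← hread, Function.update_eq_self]

/-- Reachable configurations are configurations of the run. -/
theorem run_of_steps {k : ℕ} (M : TM k) (w : List Bool) {K : ℤ} (hK : 0 ≤ K) {c : M.Cfg}
    (h : Relation.ReflTransGen (TStep M w K) (M.run w 0) c) :
    ∃ t, M.run w t = c ∧ ∀ t' ≤ t, ∀ i, |(M.run w t').head i| ≤ K := by
  induction h with
  | refl =>
    refine ⟨0, rfl, ?_⟩
    intro t' ht' i
    obtain rfl : t' = 0 := by omega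
    show |(0 : ℤ)| ≤ K
    simpa using hK
  | @tail b c' _ hst ih =>
    obtain ⟨t, rfl, hb⟩ := ih
    have hrun : M.run w (t + 1) = c' := by
      show (M.next w (M.run w t)).getD (M.run w t) = c'
      rw [hst.1]; rfl
    refine ⟨t + 1, hrun, ?_⟩
    intro t' ht' i
    rcases Nat.lt_or_ge t t' with h1 | h1
    · obtain rfl : t' = t + 1 := by omega
      rw [hrun]; exact hst.2 i
    · exact hb t' h1 i

/-- A run which halts has bounded heads at all times. -/
theorem run_bounded {k : ℕ} (M : TM k) (w : List Bool) {K : ℤ} (hK : 0 ≤ K) {c : M.Cfg}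
    (h : Relation.ReflTransGen (TStep M w K) (M.run w 0) c) (hc : M.next w c = none) :
    ∃ t, M.run w t = c ∧ ∀ t' i, |(M.run w t').head i| ≤ K := by
  obtain ⟨t, rfl, hb⟩ := run_of_steps M w hK h
  have hconst : ∀ s, M.run w (t + s) = M.run w t := by
    intro s
    induction s with
    | zero => rfl
    | succ s ih =>
      show (M.next w (M.run w (t + s))).getD (M.run w (t + s)) = M.run w t
      rw [ih, hc]; rfl
  refine ⟨t, rfl, ?_⟩
  intro t' i
  rcases Nat.lt_or_ge t t' with h1 | h1
  · obtain ⟨s, rfl⟩ : ∃ s, t' = t + s := ⟨t' - t, by omega⟩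
    rw [hconst]; exact hb t le_rfl i
  · exact hb t' h1 i

theorem val_word : ∀ w : List Bool, val (w ++ [true]) = num w
  | [] => rfl
  | b :: w => by simp [val, num, val_word w]

theorem num_lt : ∀ w : List Bool, num w < 2 ^ (w.length + 1)
  | [] => by simp [num]
  | b :: w => by
      have := num_lt w
      have hb : b.toNat ≤ 1 := by cases b <;> simp
      simp only [num, List.length_cons, pow_succ] at this ⊢
      omega

theorem bound_lt (w : List Bool) (c : ℕ) :
    (num w + 2) ^ c < 2 ^ ((w.length + 2) * (c + 1)) := by
  have h1 : num w + 2 ≤ 2 ^ (w.length + 2) := by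
    have := num_lt w
    have h2 : 2 ^ (w.length + 2) = 2 * 2 ^ (w.length + 1) := by ring
    have h3 : 2 ≤ 2 ^ (w.length + 1) := by
      calc 2 = 2 ^ 1 := rfl
        _ ≤ _ := Nat.pow_le_pow_right (by norm_num) (by omega)
    omega
  calc (num w + 2) ^ c ≤ (2 ^ (w.length + 2)) ^ c := Nat.pow_le_pow_left h1 c
    _ = 2 ^ ((w.length + 2) * c) := by rw [pow_mul]
    _ < 2 ^ ((w.length + 2) * (c + 1)) := Nat.pow_lt_pow_right (by norm_num) (by nlinarith)

/-- The first step. -/
theorem init_step (w : List Bool) {K : ℤ} (hK : 1 ≤ K) :
    TStep (theTM P z o htp) w K ((theTM P z o htp).run w 0)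
      (cfg P z o htp .copy 1 (fun _ => tapeOf [])
        (Function.update (fun _ => 0) z 1)) := by
  constructor
  · have h2 : (theTM P z o htp).next w ((theTM P z o htp).run w 0) =
        some ({ state := Ctl.copy
                inp := inputMove w .right 0
                tape := fun i => Function.update (fun _ => Sy.blank) 0 Sy.mark
                head := fun i => 0 + (if i = z then Dir.right else .stay).toInt } :
                  (theTM P z o htp).Cfg) := rfl
    rw [h2]
    refine congrArg some ?_
    have e0 : inputMove w .right 0 = 1 := by simp [inputMove]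
    have e1 : (fun _ : Fin k => Function.update (fun _ : ℤ => Sy.blank) 0 Sy.mark) =
        (fun _ : Fin k => tapeOf []) := by
      funext _ y
      by_cases hy : y = 0
      · subst hy; simp [tapeOf_zero]
      · rw [Function.update_of_ne hy]; simp [tapeOf, hy]
    have e2 : (fun i : Fin k => 0 + (if i = z then Dir.right else .stay).toInt) =
        (fun i : Fin k => Function.update (fun _ : ℕ => (0 : ℤ)) z 1 (i : ℕ)) := by
      funext i
      by_cases hi : i = z
      · subst hi; simp [Dir.toInt]
      · have : (i : ℕ) ≠ z := fun hh => hi (Fin.ext hh)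
        simp [hi, this, Dir.toInt]
    exact (TM.Cfg.mk.injEq (M := theTM P z o htp) _ _ _ _ _ _ _ _).mpr ⟨rfl, e0, e1, e2⟩
  · exact fun j => upd_bound (by norm_num) hK j

end Pool.Agent.Helper6.Compile

namespace Pool.Agent.Helper65.LinSpace

open Pool.Agent.Helper6.Compile

/-- Counter programs with polynomially bounded counters run in linear space. -/
theorem dlinspace_of_prog (P : Prog) (out c : ℕ) (L : Set (List Bool))
    (h : ∀ w : List Bool, ∃ s', Run ((num w + 2) ^ c) P (cons (num w) (fun _ => 0)) s' ∧
      (w ∈ L ↔ s' out ≠ 0)) :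
    DLINSPACE L := by
  have hfin := finite_St P
  obtain ⟨m, hm⟩ := (Set.finite_range (tp P)).bddAbove
  have hm' : ∀ a, tp P a ≤ m := fun a => hm ⟨a, rfl⟩
  set k := m + out + 1 with hk
  have htp : ∀ a, tp P a < k := fun a => by have := hm' a; omega
  let z : Fin k := ⟨0, by omega⟩
  let o : Fin k := ⟨out, by omega⟩
  refine ⟨k, theTM P z o htp, 2 * c + 3, fun w => ?_⟩
  obtain ⟨s', hrun, hL⟩ := h w
  set W := (w.length + 2) * (c + 1) with hW
  have hlenW : w.length + 1 ≤ W := by rw [hW]; nlinarith
  have hlenW' : (w.length : ℤ) + 1 ≤ W := by exact_mod_cast hlenW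
  obtain ⟨ls', hls', hst⟩ := sim (bound_lt w c) hrun
    (fun i => if i = 0 then w ++ [true] else []) (by
      intro i
      rcases i with _ | i
      · simp only [if_true, val_word, cons_zero, List.length_append, List.length_singleton]
        exact ⟨trivial, hlenW⟩
      · simp [val])
  have hT : (fun i => tapeOf ((fun i => if i = 0 then w ++ [true] else []) i)) =
      Function.update (fun _ => tapeOf []) (z : ℕ) (tapeOf (w ++ [true])) := by
    funext i
    rcases i with _ | i
    · simp [z]
    · simp [z]
  have hz0 : Function.update (fun _ : ℕ => (0 : ℤ)) (z : ℕ) 0 = fun _ => 0 := by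
    funext j; simp [Function.update_apply]
  have ho0 : Function.update (fun _ : ℕ => (0 : ℤ)) (o : ℕ) 0 = fun _ => 0 := by
    funext j; simp [Function.update_apply]
  have hK1 : (1 : ℤ) ≤ (W : ℤ) + 1 := by
    have : (0 : ℤ) ≤ W := by positivity
    linarith
  -- the phases
  have h0 := init_step (P := P) (z := z) (o := o) (htp := htp) w hK1
  have h1 := copy_phase (P := P) (z := z) (o := o) (htp := htp) (w := w) (K := (W : ℤ) + 1)
    (fun _ => tapeOf []) w [] rfl (by linarith)
  have hTe : Function.update (fun _ : ℕ => tapeOf []) (z : ℕ) (tapeOf []) = fun _ => tapeOf [] :=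
    Function.update_eq_self (f := fun _ : ℕ => tapeOf []) (a := (z : ℕ))
  simp only [List.length_nil, hTe, Nat.cast_zero, zero_add] at h1
  have h2 := back_phase (P := P) (z := z) (o := o) (htp := htp) (w := w) (K := (W : ℤ) + 1)
    (w.length + 1) (fun _ => tapeOf []) w [true] (by linarith)
  rw [← hT] at h1 h2
  rw [hz0] at h2
  have h3 := run_phase (z := z) (o := o) (htp := htp) (w := w) (w.length + 1) hst
  have hlo : (ls' out).length ≤ W := (hls' out).2
  have hlo' : ((ls' out).length : ℤ) ≤ W := by exact_mod_cast hlo
  obtain ⟨T', H', h5⟩ := scan_phase (P := P) (z := z) (o := o) (htp := htp) (w := w)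
    (K := (W : ℤ) + 1) (w.length + 1) (fun i => tapeOf (ls' i)) (ls' out) 0 (by push_cast; linarith)
  have h4 : TStep (theTM P z o htp) w ((W : ℤ) + 1)
      (cfg P z o htp .scan0 (w.length + 1) (fun i => tapeOf (ls' i)) (fun _ => 0))
      (cfg P z o htp .scan (w.length + 1)
        (Function.update (fun i => tapeOf (ls' i)) o
          (tapeOf (List.replicate 0 false ++ ls' out)))
        (Function.update (fun _ => 0) o (((0 : ℕ) : ℤ) + 1))) := by
    have hself : (fun i => tapeOf (ls' i)) =
        Function.update (fun i => tapeOf (ls' i)) (o : ℕ) (tapeOf (ls' out)) :=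
      (Function.update_eq_self (f := fun i => tapeOf (ls' i)) (a := (o : ℕ))).symm
    conv_lhs => rw [hself, ← ho0]
    refine tstep_focus (x := .mark) (d := .right) (m := .stay) _ ?_ rfl ?_ ?_ ?_ ?_
    · intro s hs
      rw [tapeOf_zero] at hs
      show some (Ctl.scan, Dir.stay, single o s (s o) .right) = _
      rw [hs]
    · have := Function.update_eq_self (f := tapeOf (ls' out)) (a := 0)
      rw [tapeOf_zero] at this
      simpa using this
    · simp [Dir.toInt]
    · simp
    · simp
  have hall := (Relation.ReflTransGen.head h0 h1).trans (h2.trans (h3.trans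
    (Relation.ReflTransGen.head h4 h5)))
  have hhalt : (theTM P z o htp).next w (cfg P z o htp (if val (ls' out) = 0 then .rej else .acc)
      (w.length + 1) T' H') = none := by
    split_ifs <;> rfl
  obtain ⟨t, ht, hb⟩ := run_bounded _ w (by positivity) hall hhalt
  refine ⟨⟨t, by rw [ht]; exact hhalt, ?_⟩, ?_⟩
  · rw [ht, hL]
    have hv : val (ls' out) = s' out := (hls' out).1
    rw [← hv]
    show _ ↔ (if val (ls' out) = 0 then Ctl.rej else Ctl.acc) ∈ ({Ctl.acc} : Set (Ctl (St P)))
    by_cases h0 : val (ls' out) = 0
    · simp [h0]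
    · simp [h0]
  · intro t' i
    refine (hb t' i).trans ?_
    have : (W : ℤ) + 1 ≤ ((2 * c + 3 : ℕ) : ℤ) * ((w.length : ℤ) + 1) := by
      rw [hW]; push_cast; nlinarith
    exact this

end Pool.Agent.Helper65.LinSpace
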