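import Pool.Agent.Helper65.LinSpace.Prog

/-!
# Compiling counter programs to machines which work on one tape at a time
-/

namespace Pool.Agent.Helper6.Compile

open Pool.Agent.Helper65.LinSpace

/-- Work tape symbols. -/
inductive Sy
  | blank
  | mark
  | bit (b : Bool)

instance : Finite Sy :=
  Finite.of_surjective (fun x : Option (Option Bool) =>
    match x with
    | none => Sy.blank
    | some none => Sy.mark
    | some (some b) => Sy.bit b) (by
      rintro (_ | _ | b)
      · exact ⟨none, rfl⟩
      · exact ⟨some none, rfl⟩
      · exact ⟨some (some b), rfl⟩)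

/-- The control states of a program. -/
def St : Prog → Type
  | .skip => Unit
  | .inc _ => Fin 3
  | .seq p q => St p ⊕ St q
  | .loop _ p => Fin 4 ⊕ St p

theorem finite_St : (p : Prog) → Finite (St p)
  | .skip => inferInstanceAs (Finite Unit)
  | .inc _ => inferInstanceAs (Finite (Fin 3))
  | .seq p q => by
      have := finite_St p
      have := finite_St q
      exact inferInstanceAs (Finite (St p ⊕ St q))
  | .loop _ p => by
      have := finite_St p
      exact inferInstanceAs (Finite (Fin 4 ⊕ St p))

/-- The initial control state. -/
def entry : (p : Prog) → St p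
  | .skip => ()
  | .inc _ => (0 : Fin 3)
  | .seq p _ => Sum.inl (entry p)
  | .loop _ _ => Sum.inl 0

/-- The tape used in a control state. -/
def tp : (p : Prog) → St p → ℕ
  | .skip, _ => 0
  | .inc i, _ => i
  | .seq p _, Sum.inl a => tp p a
  | .seq _ q, Sum.inr b => tp q b
  | .loop i _, Sum.inl _ => i
  | .loop _ p, Sum.inr a => tp p a

/-- Action of the increment. -/
def actInc : Fin 3 → Sy → Option (Fin 3) × Sy × Dir
  | 0, s => (some 1, s, .right)
  | 1, .bit true => (some 1, .bit false, .right)
  | 1, _ => (some 2, .bit true, .left)
  | 2, .mark => (none, .mark, .stay)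
  | 2, s => (some 2, s, .left)

/-- Action of the loop test; `none` is the exit, `some none` is the entry of the body. -/
def actLoop : Fin 4 → Sy → Option (Option (Fin 4)) × Sy × Dir
  | 0, s => (some (some 1), s, .right)
  | 1, .bit false => (some (some 1), .bit false, .right)
  | 1, .bit true => (some (some 2), .bit false, .left)
  | 1, s => (some (some 3), s, .left)
  | 2, .mark => (some none, .mark, .stay)
  | 2, _ => (some (some 2), .bit true, .left)
  | 3, .mark => (none, .mark, .stay)
  | 3, s => (some (some 3), s, .left)

/-- The action of the control: the next state (`none` is the exit), the written symbol and the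
move. -/
def act : (p : Prog) → St p → Sy → Option (St p) × Sy × Dir
  | .skip, _, s => (none, s, .stay)
  | .inc _, a, s => actInc a s
  | .seq p q, Sum.inl a, s =>
      ((act p a s).1.elim (some (Sum.inr (entry q))) (fun a' => some (Sum.inl a')), (act p a s).2)
  | .seq _ q, Sum.inr b, s => ((act q b s).1.elim none (fun b' => some (Sum.inr b')), (act q b s).2)
  | .loop _ p, Sum.inl a, s =>
      ((actLoop a s).1.elim none
        (fun x => some (x.elim (Sum.inr (entry p)) (fun a' => Sum.inl a'))), (actLoop a s).2)
  | .loop _ p, Sum.inr a, s =>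
      ((act p a s).1.elim (some (Sum.inl 0)) (fun a' => some (Sum.inr a')), (act p a s).2)

/-- Abstract configurations. -/
abbrev Conf (p : Prog) := Option (St p) × (ℕ → ℤ → Sy) × (ℕ → ℤ)

/-- One step from a control state. -/
def mstep (p : Prog) (a : St p) (T : ℕ → ℤ → Sy) (H : ℕ → ℤ) : Conf p :=
  ((act p a (T (tp p a) (H (tp p a)))).1,
    Function.update T (tp p a) (Function.update (T (tp p a)) (H (tp p a))
      (act p a (T (tp p a) (H (tp p a)))).2.1),
    Function.update H (tp p a) (H (tp p a) + (act p a (T (tp p a) (H (tp p a)))).2.2.toInt))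

/-- One step with bounded heads. -/
def Stp (p : Prog) (W : ℕ) (c c' : Conf p) : Prop :=
  ∃ a, c.1 = some a ∧ c' = mstep p a c.2.1 c.2.2 ∧
    ∀ i, 0 ≤ c'.2.2 i ∧ c'.2.2 i ≤ W + 1

/-- Several steps with bounded heads. -/
abbrev Steps (p : Prog) (W : ℕ) : Conf p → Conf p → Prop := Relation.ReflTransGen (Stp p W)

/-- Transport of a computation along an embedding of control states. -/
theorem Steps.lift {p r : Prog} {W : ℕ} (φ : St p → St r) (e : Option (St r))
    (htp : ∀ a, tp r (φ a) = tp p a)
    (hact : ∀ a s, act r (φ a) s =
      ((act p a s).1.elim e (fun a' => some (φ a')), (act p a s).2))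
    {c c' : Conf p} (h : Steps p W c c') :
    Steps r W (c.1.elim e (fun a' => some (φ a')), c.2) (c'.1.elim e (fun a' => some (φ a')), c'.2) := by
  refine Relation.ReflTransGen.lift (fun c : Conf p => (c.1.elim e (fun a' => some (φ a')), c.2))
    ?_ c c' h
  rintro ⟨x, T, H⟩ c₂ ⟨a, hx, rfl, hb⟩
  simp only at hx
  subst hx
  refine ⟨φ a, rfl, ?_, hb⟩
  simp only [mstep, htp, hact]

/-- A step on one tape. -/
theorem stp_focus {p : Prog} {W : ℕ} {a : St p} {i : ℕ} (hi : tp p a = i) (T : ℕ → ℤ → Sy)
    (f : ℤ → Sy) (z : ℤ) {a' : Option (St p)} {s' : Sy} {d : Dir}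
    (hact : act p a (f z) = (a', s', d)) (h0 : 0 ≤ z + d.toInt) (h1 : z + d.toInt ≤ W + 1) :
    Stp p W (some a, Function.update T i f, Function.update (fun _ => 0) i z)
      (a', Function.update T i (Function.update f z s'),
        Function.update (fun _ => 0) i (z + d.toInt)) := by
  refine ⟨a, rfl, ?_, ?_⟩
  · simp only [mstep, hi, Function.update_self, hact, Function.update_idem]
  · intro j
    by_cases hj : j = i
    · subst hj; simp only [Function.update_self]; exact ⟨h0, h1⟩
    · simp only [Function.update_of_ne hj]
      exact ⟨le_refl _, by positivity⟩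

/-- The tape with contents `l`. -/
def tapeOf (l : List Bool) : ℤ → Sy := fun z =>
  if z = 0 then .mark else if 0 < z then (l[(z - 1).toNat]?).elim .blank .bit else .blank

theorem tapeOf_zero (l : List Bool) : tapeOf l 0 = .mark := by simp [tapeOf]

theorem tapeOf_read (pre : List Bool) (b : Bool) (t : List Bool) :
    tapeOf (pre ++ b :: t) ((pre.length : ℤ) + 1) = .bit b := by
  have h1 : (pre.length : ℤ) + 1 ≠ 0 := by positivity
  have h2 : (0 : ℤ) < (pre.length : ℤ) + 1 := by positivity
  simp [tapeOf, h1, h2]

theorem tapeOf_read_end (pre : List Bool) :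
    tapeOf pre ((pre.length : ℤ) + 1) = .blank := by
  have h1 : (pre.length : ℤ) + 1 ≠ 0 := by positivity
  have h2 : (0 : ℤ) < (pre.length : ℤ) + 1 := by positivity
  simp [tapeOf, h1, h2]

theorem tapeOf_write (pre : List Bool) (b b' : Bool) (t : List Bool) :
    Function.update (tapeOf (pre ++ b :: t)) ((pre.length : ℤ) + 1) (.bit b') =
      tapeOf (pre ++ b' :: t) := by
  funext z
  by_cases hz : z = (pre.length : ℤ) + 1
  · subst hz; rw [Function.update_self, tapeOf_read]
  · rw [Function.update_of_ne hz]
    unfold tapeOf
    split_ifs with h0 h1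
    · rfl
    · obtain ⟨n, rfl⟩ : ∃ n : ℕ, z = (n : ℤ) + 1 := ⟨(z - 1).toNat, by omega⟩
      have hn : n ≠ pre.length := by rintro rfl; exact hz rfl
      have : ((n : ℤ) + 1 - 1).toNat = n := by simp
      rw [this]
      congr 1
      rw [List.getElem?_append, List.getElem?_append]
      split_ifs with h
      · rfl
      · obtain ⟨m, hm⟩ : ∃ m, n - pre.length = m + 1 := ⟨n - pre.length - 1, by omega⟩
        rw [hm]; simp
    · rfl

theorem tapeOf_write_end (pre : List Bool) (b : Bool) :
    Function.update (tapeOf pre) ((pre.length : ℤ) + 1) (.bit b) = tapeOf (pre ++ [b]) := by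
  funext z
  by_cases hz : z = (pre.length : ℤ) + 1
  · subst hz; rw [Function.update_self, tapeOf_read]
  · rw [Function.update_of_ne hz]
    unfold tapeOf
    split_ifs with h0 h1
    · rfl
    · obtain ⟨n, rfl⟩ : ∃ n : ℕ, z = (n : ℤ) + 1 := ⟨(z - 1).toNat, by omega⟩
      have hn : n ≠ pre.length := by rintro rfl; exact hz rfl
      have : ((n : ℤ) + 1 - 1).toNat = n := by simp
      rw [this]
      congr 1
      rw [List.getElem?_append]
      split_ifs with h
      · rfl
      · rw [List.getElem?_eq_none (by omega), List.getElem?_eq_none (by simp; omega)]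
    · rfl

/-- Going back to the mark, changing the bits on the way by `g`. -/
theorem back {p : Prog} {W : ℕ} {a : St p} {i : ℕ} (hi : tp p a = i) (T : ℕ → ℤ → Sy)
    {e : Option (St p)} (g : Bool → Bool)
    (hm : act p a .mark = (e, .mark, .stay))
    (hb : ∀ b, act p a (.bit b) = (some a, .bit (g b), .left)) (pre : List Bool) :
    ∀ suf : List Bool, pre.length ≤ W →
      Steps p W (some a, Function.update T i (tapeOf (pre ++ suf)),
          Function.update (fun _ => 0) i (pre.length : ℤ))
        (e, Function.update T i (tapeOf (pre.map g ++ suf)), Function.update (fun _ => 0) i 0) := by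
  induction pre using List.reverseRecOn with
  | nil =>
    intro suf hW
    refine Relation.ReflTransGen.single ?_
    have := stp_focus (W := W) hi T (tapeOf suf) 0 (a' := e) (s' := .mark) (d := .stay)
      (by rw [tapeOf_zero]; exact hm) (by simp [Dir.toInt]) (by simp [Dir.toInt]; positivity)
    rw [← tapeOf_zero suf, Function.update_eq_self] at this
    simpa [Dir.toInt] using this
  | append_singleton pre b ih =>
    intro suf hW
    have hW' : pre.length ≤ W := by simp at hW; omega
    refine Relation.ReflTransGen.head ?_ (by simpa using ih (g b :: suf) hW')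
    have hl : ((pre ++ [b]).length : ℤ) = (pre.length : ℤ) + 1 := by simp
    rw [hl]
    have hlen : (pre.length : ℤ) ≤ W := by exact_mod_cast hW'
    have := stp_focus (W := W) hi T (tapeOf (pre ++ b :: suf)) ((pre.length : ℤ) + 1)
      (a' := some a) (s' := .bit (g b)) (d := .left) (by rw [tapeOf_read]; exact hb b)
      (by simp [Dir.toInt]) (by simp [Dir.toInt]; linarith)
    rw [tapeOf_write] at this
    simpa [Dir.toInt] using this

/-- Increment of a binary numeral. -/
def incL : List Bool → List Bool
  | [] => [true]
  | false :: t => true :: t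
  | true :: t => false :: incL t

/-- The value of a binary numeral. -/
def val : List Bool → ℕ
  | [] => 0
  | b :: t => b.toNat + 2 * val t

theorem val_incL : ∀ l, val (incL l) = val l + 1
  | [] => rfl
  | false :: t => by simp [incL, val]; ring
  | true :: t => by simp [incL, val, val_incL t]; ring

theorem length_incL : ∀ l, (incL l).length ≤ l.length ∨ 2 ^ l.length = val l + 1 ∧
    (incL l).length = l.length + 1
  | [] => Or.inr ⟨rfl, rfl⟩
  | false :: t => Or.inl (by simp [incL])
  | true :: t => by
      rcases length_incL t with h | ⟨h1, h2⟩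
      · left; simp [incL, h]
      · right
        refine ⟨?_, by simp [incL, h2]⟩
        simp only [List.length_cons, pow_succ, h1, val, Bool.toNat_true]
        ring

theorem val_append (l l' : List Bool) : val (l ++ l') = val l + 2 ^ l.length * val l' := by
  induction l with
  | nil => simp [val]
  | cons b t ih => simp [val, ih, pow_succ]; ring

theorem val_replicate_false (k : ℕ) : val (List.replicate k false) = 0 := by
  induction k with
  | zero => rfl
  | succ k ih => simp [List.replicate_succ, val, ih]

theorem val_replicate_true (k : ℕ) : val (List.replicate k true) + 1 = 2 ^ k := by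
  induction k with
  | zero => rfl
  | succ k ih => simp only [List.replicate_succ, val, Bool.toNat_true, pow_succ, ← ih]; ring

theorem inc_carry (W i : ℕ) (T : ℕ → ℤ → Sy) (suf : List Bool) :
    ∀ pre : List Bool, (pre ++ suf).length ≤ W →
      Steps (.inc i) W (some (1 : Fin 3), Function.update T i (tapeOf (pre ++ suf)),
          Function.update (fun _ => 0) i ((pre.length : ℤ) + 1))
        (none, Function.update T i (tapeOf (pre ++ incL suf)),
          Function.update (fun _ => 0) i 0) := by
  have hback : ∀ (pre suf : List Bool), pre.length ≤ W →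
      Steps (.inc i) W (some (2 : Fin 3), Function.update T i (tapeOf (pre ++ suf)),
          Function.update (fun _ => 0) i (pre.length : ℤ))
        (none, Function.update T i (tapeOf (pre ++ suf)), Function.update (fun _ => 0) i 0) := by
    intro pre suf h1
    have := back (p := .inc i) (W := W) (a := (2 : Fin 3)) (i := i) rfl T (e := none) id rfl
      (fun b => rfl) pre suf h1
    simpa using this
  induction suf with
  | nil =>
    intro pre hW
    have hW' : pre.length ≤ W := by simpa using hW
    have hlen : (pre.length : ℤ) ≤ W := by exact_mod_cast hW'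
    have h1 := stp_focus (p := .inc i) (W := W) (a := (1 : Fin 3)) (i := i) rfl T (tapeOf pre)
      ((pre.length : ℤ) + 1) (a' := some (2 : Fin 3)) (s' := .bit true) (d := .left)
      (by rw [tapeOf_read_end]; rfl) (by simp [Dir.toInt]) (by simp [Dir.toInt]; linarith)
    rw [tapeOf_write_end] at h1
    refine Relation.ReflTransGen.head ?_ (hback pre [true] hW')
    simpa [Dir.toInt] using h1
  | cons b t ih =>
    intro pre hW
    have hW' : pre.length ≤ W := by simp at hW; omega
    have hW2 : pre.length + 1 ≤ W := by simp at hW; omega
    have hlen : (pre.length : ℤ) ≤ W := by exact_mod_cast hW'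
    have hlen2 : (pre.length : ℤ) + 1 ≤ W := by exact_mod_cast hW2
    cases b with
    | false =>
      have h1 := stp_focus (p := .inc i) (W := W) (a := (1 : Fin 3)) (i := i) rfl T
        (tapeOf (pre ++ false :: t))
        ((pre.length : ℤ) + 1) (a' := some (2 : Fin 3)) (s' := .bit true) (d := .left)
        (by rw [tapeOf_read]; rfl) (by simp [Dir.toInt]) (by simp [Dir.toInt]; linarith)
      rw [tapeOf_write] at h1
      refine Relation.ReflTransGen.head ?_ (hback pre (true :: t) hW')
      simpa [Dir.toInt] using h1
    | true =>
      have h1 := stp_focus (p := .inc i) (W := W) (a := (1 : Fin 3)) (i := i) rfl T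
        (tapeOf (pre ++ true :: t))
        ((pre.length : ℤ) + 1) (a' := some (1 : Fin 3)) (s' := .bit false) (d := .right)
        (by rw [tapeOf_read]; rfl) (by simp [Dir.toInt]; positivity) (by simp [Dir.toInt]; linarith)
      rw [tapeOf_write] at h1
      refine Relation.ReflTransGen.head ?_ (by simpa [incL] using ih (pre ++ [false]) (by simpa using hW))
      simpa [Dir.toInt] using h1

/-- The increment. -/
theorem inc_steps (W i : ℕ) (T : ℕ → ℤ → Sy) (l : List Bool) (hl : l.length ≤ W) :
    Steps (.inc i) W (some (entry (.inc i)), Function.update T i (tapeOf l), fun _ => 0)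
      (none, Function.update T i (tapeOf (incL l)), fun _ => 0) := by
  have h1 := stp_focus (p := .inc i) (W := W) (a := (0 : Fin 3)) (i := i) rfl T (tapeOf l)
      0 (a' := some (1 : Fin 3)) (s' := .mark) (d := .right)
      (by rw [tapeOf_zero]; rfl) (by simp [Dir.toInt]) (by simp [Dir.toInt])
  rw [← tapeOf_zero l, Function.update_eq_self] at h1
  have h2 := inc_carry W i T l [] (by simpa using hl)
  have h3 : Function.update (fun _ : ℕ => (0 : ℤ)) i 0 = fun _ => 0 := by
    funext j; simp [Function.update_apply]
  rw [h3] at h2
  exact Relation.ReflTransGen.head h1 (by simpa [Dir.toInt] using h2)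

/-- The test of the loop. -/
theorem loop_test_aux (W i : ℕ) (p : Prog) (T : ℕ → ℤ → Sy) (suf : List Bool) :
    ∀ k : ℕ, k + suf.length ≤ W →
      (val suf = 0 ∧ Steps (.loop i p) W
        (some (Sum.inl 1), Function.update T i (tapeOf (List.replicate k false ++ suf)),
          Function.update (fun _ => 0) i ((k : ℤ) + 1))
        (none, Function.update T i (tapeOf (List.replicate k false ++ suf)),
          Function.update (fun _ => 0) i 0)) ∨
      (∃ l', l'.length = k + suf.length ∧ val l' + 1 = 2 ^ k * val suf ∧ Steps (.loop i p) W
        (some (Sum.inl 1), Function.update T i (tapeOf (List.replicate k false ++ suf)),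
          Function.update (fun _ => 0) i ((k : ℤ) + 1))
        (some (Sum.inr (entry p)), Function.update T i (tapeOf l'),
          Function.update (fun _ => 0) i 0)) := by
  induction suf with
  | nil =>
    intro k hW
    left
    have hlen : (k : ℤ) ≤ W := by exact_mod_cast (by simpa using hW : k ≤ W)
    refine ⟨rfl, ?_⟩
    have h1 := stp_focus (p := .loop i p) (W := W) (a := Sum.inl (1 : Fin 4)) (i := i) rfl T
      (tapeOf (List.replicate k false))
      ((k : ℤ) + 1) (a' := some (Sum.inl (3 : Fin 4))) (s' := .blank) (d := .left)
      (by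
        have := tapeOf_read_end (List.replicate k false)
        rw [List.length_replicate] at this
        rw [this]; rfl) (by simp [Dir.toInt]) (by simp [Dir.toInt]; linarith)
    have h2 : Function.update (tapeOf (List.replicate k false)) ((k : ℤ) + 1) .blank =
        tapeOf (List.replicate k false) := by
      have := tapeOf_read_end (List.replicate k false)
      rw [List.length_replicate] at this
      rw [← this, Function.update_eq_self]
    rw [h2] at h1
    have h3 := back (p := .loop i p) (W := W) (a := Sum.inl (3 : Fin 4)) (i := i) rfl T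
      (e := none) id rfl (fun b => rfl) (List.replicate k false) [] (by simpa using hW)
    have h4 : Steps (.loop i p) W (some (Sum.inl 3), Function.update T i
        (tapeOf (List.replicate k false)), Function.update (fun _ => 0) i (k : ℤ))
        (none, Function.update T i (tapeOf (List.replicate k false)),
          Function.update (fun _ => 0) i 0) := by simpa using h3
    have h5 := Relation.ReflTransGen.head (by simpa [Dir.toInt] using h1) h4
    simpa using h5
  | cons b t ih =>
    intro k hW
    have hW2 : k + 1 ≤ W := by simp at hW; omega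
    have hlen2 : (k : ℤ) + 1 ≤ W := by exact_mod_cast hW2
    have hread : tapeOf (List.replicate k false ++ b :: t) ((k : ℤ) + 1) = .bit b := by
      have := tapeOf_read (List.replicate k false) b t
      rwa [List.length_replicate] at this
    have hwrite : ∀ b', Function.update (tapeOf (List.replicate k false ++ b :: t)) ((k : ℤ) + 1)
        (.bit b') = tapeOf (List.replicate k false ++ b' :: t) := by
      intro b'
      have := tapeOf_write (List.replicate k false) b b' t
      rwa [List.length_replicate] at this
    cases b with
    | false =>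
      have h1 := stp_focus (p := .loop i p) (W := W) (a := Sum.inl (1 : Fin 4)) (i := i) rfl T
        (tapeOf (List.replicate k false ++ false :: t))
        ((k : ℤ) + 1) (a' := some (Sum.inl (1 : Fin 4))) (s' := .bit false) (d := .right)
        (by rw [hread]; rfl) (by simp [Dir.toInt]; positivity) (by simp [Dir.toInt]; linarith)
      rw [hwrite] at h1
      have hrep : List.replicate (k + 1) false ++ t = List.replicate k false ++ false :: t := by
        rw [List.replicate_succ', List.append_assoc]; rfl
      rcases ih (k + 1) (by simp at hW; omega) with ⟨h2, h3⟩ | ⟨l', h2, h3, h4⟩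
      · left
        refine ⟨by simp [val, h2], ?_⟩
        rw [hrep] at h3
        refine Relation.ReflTransGen.head ?_ h3
        simpa [Dir.toInt] using h1
      · right
        refine ⟨l', by simp; omega, ?_, ?_⟩
        · rw [h3]; simp [val, pow_succ]; ring
        · rw [hrep] at h4
          refine Relation.ReflTransGen.head ?_ h4
          simpa [Dir.toInt] using h1
    | true =>
      right
      have h1 := stp_focus (p := .loop i p) (W := W) (a := Sum.inl (1 : Fin 4)) (i := i) rfl T
        (tapeOf (List.replicate k false ++ true :: t))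
        ((k : ℤ) + 1) (a' := some (Sum.inl (2 : Fin 4))) (s' := .bit false) (d := .left)
        (by rw [hread]; rfl) (by simp [Dir.toInt]) (by simp [Dir.toInt]; linarith)
      rw [hwrite] at h1
      have h3 := back (p := .loop i p) (W := W) (a := Sum.inl (2 : Fin 4)) (i := i) rfl T
        (e := some (Sum.inr (entry p))) (fun _ => true) rfl (fun b => rfl)
        (List.replicate k false) (false :: t) (by simp; omega)
      refine ⟨List.replicate k true ++ false :: t, by simp, ?_, ?_⟩
      · have h4 := val_replicate_true k
        rw [val_append, List.length_replicate]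
        simp only [val, Bool.toNat_false, Bool.toNat_true]
        have h5 : 2 ^ k * (1 + 2 * val t) = 2 ^ k + 2 ^ k * (2 * val t) := by ring
        rw [h5, zero_add]; omega
      · refine Relation.ReflTransGen.head ?_ (by simpa using h3)
        simpa [Dir.toInt] using h1

theorem loop_test (W i : ℕ) (p : Prog) (T : ℕ → ℤ → Sy) (l : List Bool) (hl : l.length ≤ W) :
      (val l = 0 ∧ Steps (.loop i p) W
        (some (entry (.loop i p)), Function.update T i (tapeOf l), fun _ => 0)
        (none, Function.update T i (tapeOf l), fun _ => 0)) ∨
      (∃ l', l'.length = l.length ∧ val l' + 1 = val l ∧ Steps (.loop i p) W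
        (some (entry (.loop i p)), Function.update T i (tapeOf l), fun _ => 0)
        (some (Sum.inr (entry p)), Function.update T i (tapeOf l'), fun _ => 0)) := by
  have h1 := stp_focus (p := .loop i p) (W := W) (a := Sum.inl (0 : Fin 4)) (i := i) rfl T
      (tapeOf l) 0 (a' := some (Sum.inl (1 : Fin 4))) (s' := .mark) (d := .right)
      (by rw [tapeOf_zero]; rfl) (by simp [Dir.toInt]) (by simp [Dir.toInt])
  rw [← tapeOf_zero l, Function.update_eq_self] at h1
  have h3 : Function.update (fun _ : ℕ => (0 : ℤ)) i 0 = fun _ => 0 := by
    funext j; simp [Function.update_apply]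
  rcases loop_test_aux W i p T l 0 (by simpa using hl) with ⟨h2, h4⟩ | ⟨l', h2, h5, h4⟩
  · left
    rw [h3] at h4
    exact ⟨h2, Relation.ReflTransGen.head h1 (by simpa [Dir.toInt] using h4)⟩
  · right
    rw [h3] at h4
    exact ⟨l', by simpa using h2, by simpa using h5,
      Relation.ReflTransGen.head h1 (by simpa [Dir.toInt] using h4)⟩

/-- The simulation of a run of a program. -/
theorem sim {B W : ℕ} (hB : B < 2 ^ W) {p : Prog} {s s' : ℕ → ℕ} (h : Run B p s s') :
    ∀ ls : ℕ → List Bool, (∀ i, val (ls i) = s i ∧ (ls i).length ≤ W) →
      ∃ ls' : ℕ → List Bool, (∀ i, val (ls' i) = s' i ∧ (ls' i).length ≤ W) ∧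
        Steps p W (some (entry p), fun i => tapeOf (ls i), fun _ => 0)
          (none, fun i => tapeOf (ls' i), fun _ => 0) := by
  have hupd : ∀ (ls : ℕ → List Bool) (i : ℕ) (l : List Bool),
      Function.update (fun j => tapeOf (ls j)) i (tapeOf l) =
        fun j => tapeOf (Function.update ls i l j) := by
    intro ls i l
    funext j
    by_cases hj : j = i
    · subst hj; simp
    · simp [Function.update_of_ne hj]
  have hself : ∀ (ls : ℕ → List Bool) (i : ℕ),
      Function.update (fun j => tapeOf (ls j)) i (tapeOf (ls i)) = fun j => tapeOf (ls j) := by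
    intro ls i
    rw [hupd, Function.update_eq_self]
  induction h with
  | skip s =>
    intro ls hls
    refine ⟨ls, hls, Relation.ReflTransGen.single ⟨(), rfl, ?_, ?_⟩⟩
    · simp only [mstep, tp, act, Function.update_eq_self, Dir.toInt, add_zero]
    · intro i; exact ⟨le_refl _, by positivity⟩
  | inc i s h =>
    intro ls hls
    refine ⟨Function.update ls i (incL (ls i)), ?_, ?_⟩
    · intro j
      by_cases hj : j = i
      · subst hj
        simp only [Function.update_self]
        refine ⟨by rw [val_incL, (hls j).1], ?_⟩
        rcases length_incL (ls j) with h1 | ⟨h1, h2⟩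
        · exact h1.trans (hls j).2
        · rw [h2]
          rw [(hls j).1] at h1
          have : 2 ^ (ls j).length < 2 ^ W := by omega
          exact (Nat.pow_lt_pow_iff_right (by norm_num)).1 this
      · simp only [Function.update_of_ne hj]; exact hls j
    · have := inc_steps W i (fun j => tapeOf (ls j)) (ls i) (hls i).2
      rw [hself, hupd] at this
      exact this
  | seq h₁ h₂ ih₁ ih₂ =>
    rename_i p q s₁ s₂ s₃
    intro ls hls
    obtain ⟨ls₂, hls₂, hst₁⟩ := ih₁ ls hls
    obtain ⟨ls₃, hls₃, hst₂⟩ := ih₂ ls₂ hls₂
    refine ⟨ls₃, hls₃, ?_⟩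
    have h1 := Steps.lift (r := .seq p q) (φ := fun a : St p => (Sum.inl a : St p ⊕ St q))
      (e := some (Sum.inr (entry q))) (fun a => rfl) (fun a s => rfl) hst₁
    have h2 := Steps.lift (r := .seq p q) (φ := fun a : St q => (Sum.inr a : St p ⊕ St q))
      (e := none) (fun a => rfl) (fun a s => rfl) hst₂
    exact h1.trans h2
  | loop_zero h =>
    rename_i i p s
    intro ls hls
    refine ⟨ls, hls, ?_⟩
    rcases loop_test W i p (fun j => tapeOf (ls j)) (ls i) (hls i).2 with ⟨h1, h2⟩ | ⟨l', h1, h2, h3⟩
    · rw [hself] at h2; exact h2
    · rw [(hls i).1, h] at h2; omega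
  | loop_succ h h₁ h₂ ih₁ ih₂ =>
    rename_i i p s₁ s₂ s₃
    intro ls hls
    rcases loop_test W i p (fun j => tapeOf (ls j)) (ls i) (hls i).2 with ⟨h1, h2⟩ | ⟨l', h1, h2, h3⟩
    · rw [(hls i).1] at h1; exact absurd h1 h
    · obtain ⟨ls₂, hls₂, hst₁⟩ := ih₁ (Function.update ls i l') (by
        intro j
        by_cases hj : j = i
        · subst hj
          simp only [Function.update_self]
          rw [(hls j).1] at h2
          exact ⟨by omega, by rw [h1]; exact (hls j).2⟩
        · simp only [Function.update_of_ne hj]; exact hls j)
      obtain ⟨ls₃, hls₃, hst₂⟩ := ih₂ ls₂ hls₂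
      refine ⟨ls₃, hls₃, ?_⟩
      rw [hself, hupd] at h3
      have h4 := Steps.lift (r := .loop i p) (φ := fun a : St p => (Sum.inr a : Fin 4 ⊕ St p))
        (e := some (Sum.inl 0)) (fun a => rfl) (fun a s => rfl) hst₁
      exact (h3.trans h4).trans hst₂

end Pool.Agent.Helper6.Compile
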